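import Pool.Agent.N343.AS.Stm

set_option autoImplicit false

/-!
# The exceptional point and its tails
-/

open Filter Topology MeasureTheory Finset

namespace Pool.Agent.N682.AS.RR

open Pool.Agent.N343.AS

lemma vv_eq (N : ℕ) : 3 * vv N + 1 = 4 ^ (N + 3) := by
  have h : ∀ n : ℕ, 3 * (∑ m ∈ range n, 4 ^ m) + 1 = 4 ^ n := by
    intro n
    induction n with
    | zero => simp
    | succ n ih =>
      rw [sum_range_succ, mul_add, pow_succ]
      omega
  exact h (N + 3)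

/-- the terms -/
noncomputable def t (M : ℕ) : ℝ := (vv M : ℝ) * Z (M + 1)

lemma Z_pos (N : ℕ) : 0 < Z N := by
  rw [Z]
  positivity

lemma t_nonneg (M : ℕ) : 0 ≤ t M := mul_nonneg (Nat.cast_nonneg _) (Z_pos _).le

lemma Z_anti (N k : ℕ) : Z (N + k) ≤ Z N := by
  induction k with
  | zero => exact le_rfl
  | succ k ih =>
    refine le_trans ?_ ih
    rw [Z, Z]
    apply pow_le_pow_of_le_one (by norm_num) (by norm_num)
    show E (N + k) ≤ E (N + k + 1)
    rw [E]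
    omega

lemma Z_le_one (N : ℕ) : Z N ≤ 1 := by
  rw [Z]
  exact pow_le_one₀ (by norm_num) (by norm_num)

lemma t_succ (M : ℕ) : t (M + 1) ≤ Z (M + 1) * (1 / 2) ^ (M + 1) := by
  have h1 : (vv (M + 1) : ℝ) ≤ 2 ^ (2 * M + 8) := by
    have h2 : vv (M + 1) ≤ 2 ^ (2 * M + 8) := by
      have h3 := vv_eq (M + 1)
      have h4 : (4 : ℕ) ^ (M + 1 + 3) = 2 ^ (2 * M + 8) := by
        rw [show (4 : ℕ) = 2 ^ 2 by norm_num, ← pow_mul]
        congr 1
      omega
    exact_mod_cast h2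
  have h5 : Z (M + 1 + 1) ≤ Z (M + 1) * ((1 / 2) ^ (2 * M + 8) * (1 / 2) ^ (M + 1)) := by
    rw [Z, Z, ← pow_add, ← pow_add]
    apply pow_le_pow_of_le_one (by norm_num) (by norm_num)
    show E (M + 1) + (2 * M + 8 + (M + 1)) ≤ E (M + 1 + 1)
    rw [show E (M + 1 + 1) = 2 * E (M + 1) + Q (M + 1) + 3 * (M + 1) + 12 from rfl]
    omega
  calc t (M + 1) = (vv (M + 1) : ℝ) * Z (M + 1 + 1) := rfl
    _ ≤ 2 ^ (2 * M + 8) * (Z (M + 1) * ((1 / 2) ^ (2 * M + 8) * (1 / 2) ^ (M + 1))) :=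
        mul_le_mul h1 h5 (Z_pos _).le (by positivity)
    _ = ((2 : ℝ) ^ (2 * M + 8) * (1 / 2) ^ (2 * M + 8)) * (Z (M + 1) * (1 / 2) ^ (M + 1)) := by
        ring
    _ = Z (M + 1) * (1 / 2) ^ (M + 1) := by
        rw [← mul_pow]
        norm_num

lemma t_shift (N k : ℕ) : t (N + 1 + k) ≤ Z (N + 1) * (1 / 2) ^ (k + 1) := by
  have h : t (N + 1 + k) = t (N + k + 1) := by
    congr 1
    omega
  rw [h]
  refine (t_succ (N + k)).trans ?_
  have h1 : Z (N + k + 1) ≤ Z (N + 1) := by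
    have := Z_anti (N + 1) k
    rwa [show N + 1 + k = N + k + 1 by omega] at this
  have h2 : ((1 : ℝ) / 2) ^ (N + k + 1) ≤ (1 / 2) ^ (k + 1) :=
    pow_le_pow_of_le_one (by norm_num) (by norm_num) (by omega)
  exact mul_le_mul h1 h2 (by positivity) (Z_pos _).le

lemma summ_half : Summable (fun k : ℕ => ((1 : ℝ) / 2) ^ (k + 1)) :=
  (summable_nat_add_iff 1).2 summable_geometric_two

lemma summ_t1 (N : ℕ) : Summable (fun k => t (N + 1 + k)) :=
  Summable.of_nonneg_of_le (fun _ => t_nonneg _) (fun k => t_shift N k)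
    (summ_half.mul_left (Z (N + 1)))

lemma summ_t (N : ℕ) : Summable (fun k => t (N + k)) := by
  apply (summable_nat_add_iff 1).1
  refine (summ_t1 N).congr fun k => ?_
  congr 1
  omega

lemma rr_eq (N : ℕ) : rr N = ∑' k, t (N + k) := rfl

lemma rr_succ (N : ℕ) : rr N = vv N * Z (N + 1) + rr (N + 1) := by
  rw [rr_eq, rr_eq, (summ_t N).tsum_eq_zero_add]
  congr 1
  apply tsum_congr
  intro k
  congr 1
  omega

lemma rr_nonneg (N : ℕ) : 0 ≤ rr N := by
  rw [rr_eq]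
  exact tsum_nonneg fun _ => t_nonneg _

lemma rr_le (N : ℕ) : rr (N + 1) ≤ Z (N + 1) := by
  rw [rr_eq]
  calc ∑' k, t (N + 1 + k) ≤ ∑' k : ℕ, Z (N + 1) * (1 / 2) ^ (k + 1) :=
        (summ_t1 N).tsum_le_tsum (fun k => t_shift N k) (summ_half.mul_left _)
    _ = Z (N + 1) := by
        rw [tsum_mul_left]
        have h : ∑' k : ℕ, ((1 : ℝ) / 2) ^ (k + 1) = 1 := by
          have h1 := tsum_geometric_two
          rw [summable_geometric_two.tsum_eq_zero_add] at h1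
          simp only [pow_zero] at h1
          linarith
        rw [h, mul_one]

theorem main : S_RR := by
  refine ⟨rr_succ, fun N => ⟨?_, ?_⟩, vv_eq⟩
  · rw [rr_succ N]
    linarith [rr_nonneg (N + 1)]
  · rw [rr_succ N]
    have := rr_le N
    linarith [Z_pos (N + 1)]

end Pool.Agent.N682.AS.RR
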